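import Mathlib
import Pool.Agent.Helper95.Tsallis.Defs
import Pool.Agent.Helper95.Tsallis.Proof

/-!
# Symmetric i.i.d. perturbations reproduce two-armed 1/2-Tsallis FTRL

The problem asks whether there is a symmetric law `μ` such that the difference of two independent
`μ`-distributed variables has the law `D̄` of `c(U)`. The theorem `result` below answers YES.

Outline of the proof. With `x = x(u)` and `c(x(u)) = sinh u` the characteristic function of `D̄` is
`g(t) = ∫ w(u) cos (t sinh u) du` with `w` analytic. Moving the line of integration to
`Im = π/2` gives, for `t > 0`, `g(t) = ∫ exp(- t cosh v) ψ(v) dv`, which continues `g` to an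
analytic function `G` on the right half plane. Writing `|G(x + i y)|²` as a double integral in
`v = a + b`, `w = a - b` and using Gaussian integrals for the square roots in `ψ`, the integral
over `b` becomes a mixture with nonnegative weights of Bessel functions
`K_0(√((2 x cosh a)² + B²))`. Hence `x ↦ |G(x + i y)|` is decreasing for every `y`, so
`- G' / G` has nonnegative real part on the right half plane. By the Poisson (Herglotz)
representation of this function, `- log g(t)` is a limit of mixtures, with nonnegative weights, of
the functions `1 - 1 / (1 + s² t²)`. So for every `c ≥ 0` the power `g ^ c` is a limit of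
characteristic functions of compound Poisson laws with (mixtures of) Laplace jumps, hence itself a
characteristic function; `c = 1/2` gives `μ`.
-/

set_option autoImplicit false

open MeasureTheory

namespace Pool.Agent.Results.MP_f86038_pr.SymmetricTsallis

open Pool.Agent.Helper95.Tsallis

/-- **Yes**: there is a symmetric probability law `μ` on `ℝ` such that for independent
`r₁, r₂ ∼ μ` the difference `r₂ - r₁` has law `D̄`. -/
theorem result :
    ∃ μ : Measure ℝ, IsProbabilityMeasure μ ∧ μ.map (fun r : ℝ => -r) = μ ∧
      (μ.prod μ).map (fun p : ℝ × ℝ => p.2 - p.1) = Dbar :=
  let ⟨μ, h1, h2, h3, _⟩ := Pool.Agent.Helper95.Tsallis.main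
  ⟨μ, h1, h2, h3⟩

end Pool.Agent.Results.MP_f86038_pr.SymmetricTsallis
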